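import Pool.Agent.X115.HS.Stm2

set_option autoImplicit false

namespace Pool.Agent.X235.HS

open MeasureTheory Set Filter Topology Real Pool.Agent.X115.HS

theorem t_LIM1 : S_LIM1 := by
  intro hL hC hP hB n v a hw x0 s hs
  obtain ⟨hLs, C, σ, hσ, hbd⟩ := hL n (s : ℂ) (by simpa using hs)
  obtain ⟨hsm, -, hlap⟩ := hLs x0
  obtain ⟨χ, K, hχ⟩ := hC n
  obtain ⟨hhk, hpos, hint, hint1, -⟩ := hB n s hs
  obtain ⟨-, hposσ, hintσ, hint1σ, -⟩ := hB n σ hσ
  obtain ⟨M, hM⟩ := hw.bdd (π / 2)
  have hgre : (fun x : X n => (hk (s:ℂ) (x - x0)).re) = fun x => gk s (x - x0) := by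
    funext x; simp [hhk]
  rw [hgre] at hsm
  have hpi : (0:ℝ) ≤ π / 2 := by positivity
  have hM0 : 0 ≤ M := le_trans (abs_nonneg _) (hM x0 0 ⟨le_refl _, hpi⟩)
  -- bounds
  have hG0 : ∀ x : X n, 0 < gk σ (x - x0) := fun x => hposσ _
  have hGi : Integrable (fun x : X n => gk σ (x - x0)) := hintσ.comp_sub_right x0
  have hG1 : ∫ x : X n, gk σ (x - x0) = 1 := by
    rw [← hint1σ]; exact integral_sub_right_eq_self (fun x : X n => gk σ x) x0
  have hg1 : ∀ x : X n, |gk s (x - x0)| ≤ C * gk σ (x - x0) := by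
    intro x
    have := (hbd x0 x).1
    rwa [hhk, Complex.norm_real, Real.norm_eq_abs] at this
  have hC0 : 0 ≤ C := by
    have h1 := hg1 x0
    have h2 := hG0 x0
    by_contra hc
    push Not at hc
    have : C * gk σ (x0 - x0) < 0 := mul_neg_of_neg_of_pos hc h2
    linarith [abs_nonneg (gk s (x0 - x0))]
  have hpd : ∀ x i, |pd i (fun x => gk s (x - x0)) x| ≤ C * gk σ (x - x0) := by
    intro x i
    have := ((hbd x0 x).2.2 i).1
    rwa [hgre] at this
  have hlg : ∀ x, |lap (fun x => gk s (x - x0)) x| ≤ C * gk σ (x - x0) := by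
    intro x
    have h1 := (hlap x).1
    rw [hgre] at h1
    rw [h1]
    exact le_trans (Complex.abs_re_le_norm _) (hbd x0 x).2.1
  -- the Laplacian of the product
  have hcd2 : ContDiff ℝ 2 (fun x : X n => gk s (x - x0)) := hsm.of_le (WithTop.coe_le_coe.mpr (le_top : (2 : ℕ∞) ≤ ⊤))
  have hlape : ∀ k x, |lap (fun y => gk s (y - x0) * χ k y) x| ≤
      C * (1 + 3 * n * |K|) * gk σ (x - x0) := by
    intro k x
    obtain ⟨c1, c2, c3, c4, c5, c6⟩ := hχ k
    have hc2 : ContDiff ℝ 2 (χ k) := c1.of_le (WithTop.coe_le_coe.mpr (le_top : (2 : ℕ∞) ≤ ⊤))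
    rw [(hP n _ _ hcd2 hc2).1 x]
    have hK1 : ∀ i, |pd i (χ k) x| ≤ |K| := fun i => (c5 x i).1.trans (le_abs_self K)
    have hK2 : ∀ i, |d2 i (χ k) x| ≤ |K| := fun i => (c5 x i).2.trans (le_abs_self K)
    have hCG : 0 ≤ C * gk σ (x - x0) := mul_nonneg hC0 (hG0 x).le
    have e1 : |lap (fun x => gk s (x - x0)) x * χ k x| ≤ C * gk σ (x - x0) := by
      rw [abs_mul]
      have : |χ k x| ≤ 1 := by
        rw [abs_of_nonneg (c3 x).1]; exact (c3 x).2
      calc _ ≤ C * gk σ (x - x0) * 1 := mul_le_mul (hlg x) this (abs_nonneg _) hCG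
        _ = _ := mul_one _
    have e2 : |2 * ∑ i, pd i (fun x => gk s (x - x0)) x * pd i (χ k) x| ≤
        2 * (n * (C * gk σ (x - x0) * |K|)) := by
      rw [abs_mul, abs_of_pos (by norm_num : (0:ℝ) < 2)]
      refine mul_le_mul_of_nonneg_left ?_ (by norm_num)
      calc _ ≤ ∑ i, |pd i (fun x => gk s (x - x0)) x * pd i (χ k) x| :=
            Finset.abs_sum_le_sum_abs _ _
        _ ≤ ∑ _i : Fin n, (C * gk σ (x - x0) * |K|) := by
            refine Finset.sum_le_sum fun i _ => ?_
            rw [abs_mul]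
            exact mul_le_mul (hpd x i) (hK1 i) (abs_nonneg _) hCG
        _ = _ := by simp
    have e3 : |gk s (x - x0) * lap (χ k) x| ≤ C * gk σ (x - x0) * (n * |K|) := by
      rw [abs_mul]
      refine mul_le_mul (hg1 x) ?_ (abs_nonneg _) hCG
      unfold lap
      calc _ ≤ ∑ i, |d2 i (χ k) x| := Finset.abs_sum_le_sum_abs _ _
        _ ≤ ∑ _i : Fin n, |K| := Finset.sum_le_sum fun i _ => hK2 i
        _ = _ := by simp
    calc _ ≤ |lap (fun x => gk s (x - x0)) x * χ k x| +
          |2 * ∑ i, pd i (fun x => gk s (x - x0)) x * pd i (χ k) x| +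
          |gk s (x - x0) * lap (χ k) x| := abs_add_three _ _ _
      _ ≤ C * gk σ (x - x0) + 2 * (n * (C * gk σ (x - x0) * |K|)) +
          C * gk σ (x - x0) * (n * |K|) := add_le_add (add_le_add e1 e2) e3
      _ = _ := by ring
  -- the bound
  set C' : ℝ := C * (1 + 3 * n * |K|) with hC'
  have hC'0 : 0 ≤ C' := by positivity
  have key : ∀ k, ∫ x, a x * (gk s (x - x0) * χ k x) ≤ M * C + M * C' * (π / 2) := by
    intro k
    obtain ⟨c1, c2, c3, c4, c5, c6⟩ := hχ k
    have hd := hw.duh (fun y => gk s (y - x0) * χ k y) (hsm.mul c1) c2.mul_left (π / 2) hpi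
    rw [Real.sin_pi_div_two, mul_one] at hd
    have b1 : |∫ x, v x (π / 2) * (gk s (x - x0) * χ k x)| ≤ M * C := by
      have := norm_integral_le_of_norm_le (μ := (volume : Measure (X n)))
        (f := fun x => v x (π / 2) * (gk s (x - x0) * χ k x)) (hGi.const_mul (M * C))
        (Eventually.of_forall fun x => by
          rw [Real.norm_eq_abs, abs_mul, abs_mul]
          have h1 : |χ k x| ≤ 1 := by
            rw [abs_of_nonneg (c3 x).1]; exact (c3 x).2
          have h2 := hM x (π / 2) ⟨hpi, le_refl _⟩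
          have h3 : |gk s (x - x0)| * |χ k x| ≤ C * gk σ (x - x0) * 1 :=
            mul_le_mul (hg1 x) h1 (abs_nonneg _) (mul_nonneg hC0 (hG0 x).le)
          calc _ ≤ M * (C * gk σ (x - x0) * 1) := mul_le_mul h2 h3 (by positivity) hM0
            _ = _ := by ring)
      rw [integral_const_mul, hG1, mul_one] at this
      exact this
    have b2 : |∫ τ in (0 : ℝ)..(π / 2), Real.sin (π / 2 - τ) *
        ∫ x, v x τ * lap (fun y => gk s (y - x0) * χ k y) x| ≤ M * C' * (π / 2) := by
      have := intervalIntegral.norm_integral_le_of_norm_le_const (a := (0:ℝ)) (b := π / 2)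
        (C := M * C') (f := fun τ => Real.sin (π / 2 - τ) *
        ∫ x, v x τ * lap (fun y => gk s (y - x0) * χ k y) x) (by
          intro τ hτ
          rw [uIoc_of_le hpi] at hτ
          rw [Real.norm_eq_abs, abs_mul]
          have h1 : |Real.sin (π / 2 - τ)| ≤ 1 := Real.abs_sin_le_one _
          have h2 : |∫ x, v x τ * lap (fun y => gk s (y - x0) * χ k y) x| ≤ M * C' := by
            have := norm_integral_le_of_norm_le (μ := (volume : Measure (X n)))
              (f := fun x => v x τ * lap (fun y => gk s (y - x0) * χ k y) x)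
              (hGi.const_mul (M * C'))
              (Eventually.of_forall fun x => by
                rw [Real.norm_eq_abs, abs_mul]
                have h2 := hM x τ ⟨hτ.1.le, hτ.2⟩
                calc _ ≤ M * (C' * gk σ (x - x0)) :=
                      mul_le_mul h2 (hlape k x) (abs_nonneg _) hM0
                  _ = _ := by ring)
            rw [integral_const_mul, hG1, mul_one] at this
            exact this
          calc _ ≤ 1 * (M * C') := mul_le_mul h1 h2 (abs_nonneg _) (by norm_num)
            _ = _ := one_mul _)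
      rw [sub_zero, abs_of_nonneg hpi] at this
      exact this
    have b1' := (abs_le.mp b1).2
    have b2' := (abs_le.mp b2).2
    linarith
  -- conclusion
  have hcg : Continuous (fun x : X n => gk s (x - x0)) := hcd2.continuous
  have hag : Continuous (fun x : X n => a x * gk s (x - x0)) := hw.acont.mul hcg
  have hcov : AECover (volume : Measure (X n)) atTop
      (fun k : ℕ => Metric.closedBall (0 : X n) (k : ℝ)) :=
    aecover_closedBall tendsto_natCast_atTop_atTop
  refine hcov.integrable_of_integral_norm_bounded (M * C + M * C' * (π / 2)) ?_ ?_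
  · intro k
    exact hag.continuousOn.integrableOn_compact (isCompact_closedBall _ _)
  · refine Eventually.of_forall fun k => le_trans ?_ (key k)
    obtain ⟨c1, c2, c3, c4, c5, c6⟩ := hχ k
    have h1 : ∫ x in Metric.closedBall (0 : X n) (k : ℝ), ‖a x * gk s (x - x0)‖ =
        ∫ x in Metric.closedBall (0 : X n) (k : ℝ), a x * (gk s (x - x0) * χ k x) := by
      refine setIntegral_congr_fun Metric.isClosed_closedBall.measurableSet fun x hx => ?_
      have hx' : ‖x‖ ≤ k := by simpa using hx
      rw [c4 x hx', mul_one, Real.norm_eq_abs, abs_of_nonneg]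
      exact mul_nonneg (hw.apos x) (hpos _).le
    rw [h1]
    refine setIntegral_le_integral ?_ (Eventually.of_forall fun x => ?_)
    · refine Continuous.integrable_of_hasCompactSupport ?_ ?_
      · exact hw.acont.mul (hcg.mul c1.continuous)
      · exact (c2.mul_left).mul_left
    · exact mul_nonneg (hw.apos x) (mul_nonneg (hpos _).le (c3 x).1)

end Pool.Agent.X235.HS
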